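import Pool.Agent.Lib.MP_d38296_lc.UOrd

namespace Pool.Agent.FS.GoogolLog

open Finset Pool.Agent.Lib.MP_d38296_lc

/-- The inequalities that the parameters have to satisfy. -/
structure Par (n : ℕ) (η ρ q L : ℝ) (V Δ : ℕ) : Prop where
  one_lt : 1 < ρ
  q_pos : 0 < q
  q_lt : q < 1
  L_pos : 0 < L
  low_up : ∀ v : ℕ, ∑ a ∈ Ico 1 v, ρ ^ a / ρ ^ v ≤ L
  low_lo : ∀ v : ℕ, V ≤ v → (1 - η) * L + n ≤ ∑ a ∈ Ico 1 v, ρ ^ a / ρ ^ v
  hi_up : ∀ k : ℕ, 1 ≤ k → k ≤ n → ∀ T : ℕ, ∑ t ∈ Icc 1 T, (1 / (ρ ^ k * q)) ^ t ≤ (1 + η) * L / k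
  hi_lo : ∀ k : ℕ, 1 ≤ k → k ≤ n → (1 - η) * L / k ≤ ∑ t ∈ Icc 1 Δ, (q / ρ ^ k) ^ t

/-- weight of the maximum -/
noncomputable def wt (q : ℝ) (c v : ℕ) : ℝ := q ^ ((v - c) + (c - v))

/-- scale of a history -/
noncomputable def lam (ρ q L : ℝ) (c n : ℕ) (h : List ℕ) : ℝ :=
  ρ ^ h.sum / ρ ^ (h.length * mx h) * wt q c (mx h) * L ^ (n - h.length)

/-- normalised continuation value of the ordinal problem -/
noncomputable def bb (n k : ℕ) : ℝ := n * Bv n k / k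

/-- mass of the continuations in which the current maximum survives -/
noncomputable def Qm (W : List ℕ → ℝ) (N : ℕ) : ℕ → List ℕ → ℝ
  | 0, h => W h
  | j + 1, h => ∑ a ∈ (Icc 1 N).filter (fun a => a ∉ h),
      if a ≤ mx h then Qm W N j (h ++ [a]) else 0

/-- mass of the continuations on which the ordinal rule wins later -/
noncomputable def Bm (W : List ℕ → ℝ) (n N : ℕ) : ℕ → List ℕ → ℝ
  | 0, _ => 0
  | j + 1, h => ∑ a ∈ (Icc 1 N).filter (fun a => a ∉ h),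
      if rule n (h ++ [a]) = true then Qm W N j (h ++ [a]) else Bm W n N j (h ++ [a])

theorem Qm_zero (W : List ℕ → ℝ) (N : ℕ) (h : List ℕ) : Qm W N 0 h = W h := rfl

theorem Qm_succ (W : List ℕ → ℝ) (N j : ℕ) (h : List ℕ) :
    Qm W N (j + 1) h = ∑ a ∈ (Icc 1 N).filter (fun a => a ∉ h),
      if a ≤ mx h then Qm W N j (h ++ [a]) else 0 := rfl

theorem Bm_zero (W : List ℕ → ℝ) (n N : ℕ) (h : List ℕ) : Bm W n N 0 h = 0 := rfl

theorem Bm_succ (W : List ℕ → ℝ) (n N j : ℕ) (h : List ℕ) :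
    Bm W n N (j + 1) h = ∑ a ∈ (Icc 1 N).filter (fun a => a ∉ h),
      if rule n (h ++ [a]) = true then Qm W N j (h ++ [a]) else Bm W n N j (h ++ [a]) := rfl

theorem wt_pos {q : ℝ} (hq : 0 < q) (c v : ℕ) : 0 < wt q c v := pow_pos hq _

theorem lam_pos {ρ q L : ℝ} (hρ : 0 < ρ) (hq : 0 < q) (hL : 0 < L) (c n : ℕ) (h : List ℕ) :
    0 < lam ρ q L c n h := by
  have := wt_pos hq c (mx h)
  unfold lam
  positivity

theorem Qm_nonneg {W : List ℕ → ℝ} (hW : ∀ l, 0 ≤ W l) (N : ℕ) : ∀ j h, 0 ≤ Qm W N j h := by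
  intro j
  induction j with
  | zero => exact hW
  | succ j ih =>
    intro h
    rw [Qm_succ]
    exact sum_nonneg fun a _ => by split_ifs; exacts [ih _, le_rfl]

theorem Bm_nonneg {W : List ℕ → ℝ} (hW : ∀ l, 0 ≤ W l) (n N : ℕ) : ∀ j h, 0 ≤ Bm W n N j h := by
  intro j
  induction j with
  | zero => exact fun _ => le_rfl
  | succ j ih =>
    intro h
    rw [Bm_succ]
    exact sum_nonneg fun a _ => by split_ifs; exacts [Qm_nonneg hW N _ _, ih _]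

theorem append_mem_LL {N k : ℕ} {h : List ℕ} (hh : h ∈ LL N k) {a : ℕ}
    (ha : a ∈ (Icc 1 N).filter (fun a => a ∉ h)) : h ++ [a] ∈ LL N (k + 1) := by
  rw [mem_LL] at hh ⊢
  rw [mem_filter] at ha
  refine ⟨by simp [hh.1], ?_, fun x hx => ?_⟩
  · rw [List.nodup_append]
    refine ⟨hh.2.1, List.nodup_singleton a, fun x hx y hy => ?_⟩
    rw [List.mem_singleton.1 hy]
    exact fun e => ha.2 (e ▸ hx)
  · rcases List.mem_append.1 hx with h1 | h1
    · exact hh.2.2 x h1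
    · rw [List.mem_singleton.1 h1]; exact ha.1

end Pool.Agent.FS.GoogolLog
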