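import Pool.Agent.FS.GoogolLog2.S

namespace Pool.Agent.FS.GoogolLog

open Finset Pool.Agent.Lib.MP_d38296_lc

variable {n : ℕ} {η ρ q L : ℝ} {V Δ : ℕ}

theorem lam_low (P : Par n η ρ q L V Δ) (c : ℕ) {h : List ℕ} (hk : h.length < n) {a : ℕ}
    (ha : a ≤ mx h) : lam ρ q L c n (h ++ [a]) = lam ρ q L c n h / L * (ρ ^ a / ρ ^ mx h) := by
  have h0 : 0 < ρ := zero_lt_one.trans P.one_lt
  have hL := P.L_pos
  have e : n - h.length = n - (h.length + 1) + 1 := by omega
  unfold lam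
  rw [mx_append, max_eq_left ha, e]
  simp only [List.sum_append, List.sum_singleton, List.length_append, List.length_singleton]
  rw [add_mul, one_mul, pow_add, pow_add, pow_succ]
  field_simp

theorem lam_high (P : Par n η ρ q L V Δ) (c : ℕ) {h : List ℕ} (hk : h.length < n) (t : ℕ) :
    lam ρ q L c n (h ++ [mx h + t]) =
      lam ρ q L c n h / L * ((1 / ρ ^ h.length) ^ t * (wt q c (mx h + t) / wt q c (mx h))) := by
  have h0 : 0 < ρ := zero_lt_one.trans P.one_lt
  have hL := P.L_pos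
  have hw := wt_pos P.q_pos c (mx h)
  have e : n - h.length = n - (h.length + 1) + 1 := by omega
  unfold lam
  rw [mx_append, max_eq_right (Nat.le_add_right _ _), e]
  simp only [List.sum_append, List.sum_singleton, List.length_append, List.length_singleton]
  rw [add_mul, one_mul, mul_add, pow_add, pow_add, pow_add, pow_add, pow_succ, one_div, inv_pow,
    ← pow_mul]
  field_simp
  ring

theorem wt_up (P : Par n η ρ q L V Δ) (c v t : ℕ) : wt q c (v + t) / wt q c v ≤ (1 / q) ^ t := by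
  have hq := P.q_pos
  rw [div_le_iff₀ (wt_pos hq c v), one_div, inv_pow, le_inv_mul_iff₀ (by positivity)]
  unfold wt
  rw [← pow_add]
  exact pow_le_pow_of_le_one hq.le P.q_lt.le (by omega)

theorem wt_lo (P : Par n η ρ q L V Δ) (c v t : ℕ) : q ^ t ≤ wt q c (v + t) / wt q c v := by
  have hq := P.q_pos
  rw [le_div_iff₀ (wt_pos hq c v)]
  unfold wt
  rw [← pow_add]
  exact pow_le_pow_of_le_one hq.le P.q_lt.le (by omega)

theorem sum_low_up (P : Par n η ρ q L V Δ) (c : ℕ) {N k : ℕ} {h : List ℕ} (hh : h ∈ LL N k)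
    (hk : 1 ≤ k) (hkn : k < n) :
    ∑ a ∈ (Icc 1 N).filter (fun a => a ∉ h),
      (if a ≤ mx h then lam ρ q L c n (h ++ [a]) else 0) ≤ lam ρ q L c n h := by
  have h0 : 0 < ρ := zero_lt_one.trans P.one_lt
  have hL := P.L_pos
  have hl := ((mem_LL N k h).1 hh).1
  have hp := lam_pos h0 P.q_pos hL c n h
  have hm : mx h ∈ h := mx_mem (by rintro rfl; simp at hl; omega)
  rw [← sum_filter]
  calc _ = ∑ a ∈ ((Icc 1 N).filter (fun a => a ∉ h)).filter (fun a => a ≤ mx h),
        lam ρ q L c n h / L * (ρ ^ a / ρ ^ mx h) :=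
        sum_congr rfl fun a ha => lam_low P c (by omega) (mem_filter.1 ha).2
    _ ≤ ∑ a ∈ Ico 1 (mx h), lam ρ q L c n h / L * (ρ ^ a / ρ ^ mx h) := by
        refine sum_le_sum_of_subset_of_nonneg (fun a ha => ?_) fun a _ _ => by positivity
        simp only [mem_filter, mem_Icc, mem_Ico] at ha ⊢
        exact ⟨ha.1.1.1, lt_of_le_of_ne ha.2 fun e => ha.1.2 (e ▸ hm)⟩
    _ ≤ lam ρ q L c n h / L * L := by
        rw [← mul_sum]
        gcongr
        exact P.low_up _
    _ = _ := by field_simp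

theorem sum_low_lo (P : Par n η ρ q L V Δ) (c : ℕ) {N k : ℕ} {h : List ℕ} (hh : h ∈ LL N k)
    (hkn : k < n) (hV : V ≤ mx h) :
    (1 - η) * lam ρ q L c n h ≤ ∑ a ∈ (Icc 1 N).filter (fun a => a ∉ h),
      (if a ≤ mx h then lam ρ q L c n (h ++ [a]) else 0) := by
  have h0 : 0 < ρ := zero_lt_one.trans P.one_lt
  have hL := P.L_pos
  have hl := ((mem_LL N k h).1 hh).1
  have hp := lam_pos h0 P.q_pos hL c n h
  have hN := mx_le_N hh
  have h1 : ∑ a ∈ (Ico 1 (mx h)).filter (fun a => a ∈ h), ρ ^ a / ρ ^ mx h ≤ n := by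
    have h2 : ((Ico 1 (mx h)).filter (fun a => a ∈ h)).card ≤ n := by
      refine le_trans (card_le_card (t := h.toFinset) fun a ha => ?_)
        ((List.toFinset_card_le h).trans (by omega))
      exact List.mem_toFinset.2 (mem_filter.1 ha).2
    refine (sum_le_card_nsmul _ _ 1 fun a ha => ?_).trans (by simpa using h2)
    rw [div_le_one (by positivity)]
    exact pow_le_pow_right₀ P.one_lt.le (mem_Ico.1 (mem_filter.1 ha).1).2.le
  have h3 := sum_filter_add_sum_filter_not (Ico 1 (mx h)) (fun a => a ∈ h)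
    (fun a => ρ ^ a / ρ ^ mx h)
  have h4 := P.low_lo _ hV
  rw [← sum_filter]
  calc _ = lam ρ q L c n h / L * ((1 - η) * L) := by field_simp
    _ ≤ lam ρ q L c n h / L * ∑ a ∈ (Ico 1 (mx h)).filter (fun a => a ∉ h), ρ ^ a / ρ ^ mx h := by
        gcongr
        linarith
    _ ≤ ∑ a ∈ ((Icc 1 N).filter (fun a => a ∉ h)).filter (fun a => a ≤ mx h),
        lam ρ q L c n h / L * (ρ ^ a / ρ ^ mx h) := by
        rw [mul_sum]
        refine sum_le_sum_of_subset_of_nonneg (fun a ha => ?_) fun a _ _ => by positivity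
        simp only [mem_filter, mem_Icc, mem_Ico] at ha ⊢
        exact ⟨⟨⟨ha.1.1, by omega⟩, ha.2⟩, ha.1.2.le⟩
    _ = _ := sum_congr rfl fun a ha => (lam_low P c (by omega) (mem_filter.1 ha).2).symm

theorem high_set {N k : ℕ} {h : List ℕ} (T : ℕ) (hT : mx h + T ≤ N) (F : ℕ → ℝ) (_hh : h ∈ LL N k) :
    ∑ a ∈ (Icc 1 N).filter (fun a => a ∉ h), (if mx h < a ∧ a ≤ mx h + T then F a else 0) =
      ∑ t ∈ Icc 1 T, F (mx h + t) := by
  rw [← sum_filter]
  symm
  refine sum_bij (fun t _ => mx h + t) (fun t ht => ?_) (fun _ _ _ _ e => by omega)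
    (fun a ha => ?_) fun _ _ => rfl
  · simp only [mem_filter, mem_Icc] at ht ⊢
    exact ⟨⟨⟨by omega, by omega⟩, fun hc => by have := le_mx hc; omega⟩, by omega, by omega⟩
  · simp only [mem_filter, mem_Icc] at ha
    exact ⟨a - mx h, mem_Icc.2 ⟨by omega, by omega⟩, by omega⟩

theorem sum_hi_up (P : Par n η ρ q L V Δ) (c : ℕ) {N k : ℕ} {h : List ℕ} (hh : h ∈ LL N k)
    (hk : 1 ≤ k) (hkn : k < n) :
    ∑ a ∈ (Icc 1 N).filter (fun a => a ∉ h),
      (if mx h < a then lam ρ q L c n (h ++ [a]) else 0) ≤ (1 + η) / k * lam ρ q L c n h := by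
  have h0 : 0 < ρ := zero_lt_one.trans P.one_lt
  have hL := P.L_pos
  have hq := P.q_pos
  have hl := ((mem_LL N k h).1 hh).1
  have hp := lam_pos h0 P.q_pos hL c n h
  have hN := mx_le_N hh
  calc _ = ∑ a ∈ (Icc 1 N).filter (fun a => a ∉ h),
        (if mx h < a ∧ a ≤ mx h + (N - mx h) then lam ρ q L c n (h ++ [a]) else 0) := by
        refine sum_congr rfl fun a ha => if_congr ?_ rfl rfl
        have := (mem_Icc.1 (mem_filter.1 ha).1).2
        omega
    _ = _ := high_set (N - mx h) (by omega) _ hh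
    _ ≤ ∑ t ∈ Icc 1 (N - mx h), lam ρ q L c n h / L * (1 / (ρ ^ k * q)) ^ t := by
        refine sum_le_sum fun t _ => ?_
        rw [lam_high P c (by omega), hl, ← one_div_mul_one_div, mul_pow]
        gcongr
        exact wt_up P c _ _
    _ ≤ lam ρ q L c n h / L * ((1 + η) * L / k) := by
        rw [← mul_sum]
        gcongr
        exact P.hi_up k hk hkn.le _
    _ = _ := by field_simp

theorem sum_hi_lo (P : Par n η ρ q L V Δ) (c : ℕ) {N k : ℕ} {h : List ℕ} (hh : h ∈ LL N k)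
    (hk : 1 ≤ k) (hkn : k < n) (hT : mx h + Δ ≤ N) :
    (1 - η) / k * lam ρ q L c n h ≤ ∑ a ∈ (Icc 1 N).filter (fun a => a ∉ h),
      (if mx h < a ∧ a ≤ mx h + Δ then lam ρ q L c n (h ++ [a]) else 0) := by
  have h0 : 0 < ρ := zero_lt_one.trans P.one_lt
  have hL := P.L_pos
  have hq := P.q_pos
  have hl := ((mem_LL N k h).1 hh).1
  have hp := lam_pos h0 P.q_pos hL c n h
  rw [high_set Δ hT _ hh]
  calc _ = lam ρ q L c n h / L * ((1 - η) * L / k) := by field_simp
    _ ≤ lam ρ q L c n h / L * ∑ t ∈ Icc 1 Δ, (q / ρ ^ k) ^ t := by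
        gcongr
        exact P.hi_lo k hk hkn.le
    _ ≤ _ := by
        rw [mul_sum]
        refine sum_le_sum fun t _ => ?_
        rw [lam_high P c (by omega), hl, div_eq_mul_one_div q, mul_pow, mul_comm (q ^ t)]
        gcongr
        exact wt_lo P c _ _

end Pool.Agent.FS.GoogolLog
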