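import Pool.Agent.FS.GoogolLog.B

namespace Pool.Agent.FS.GoogolLog

open Finset Pool.Agent.Lib.MP_d38296_lc

variable {n : ℕ} {η ρ q L : ℝ} {V Δ : ℕ}

theorem Q_up (P : Par n η ρ q L V Δ) (c N : ℕ) : ∀ j k h, h ∈ LL N k → 1 ≤ k → k + j = n →
    Qm (lam ρ q L c n) N j h ≤ lam ρ q L c n h := by
  intro j
  induction j with
  | zero => exact fun k h _ _ _ => le_rfl
  | succ j ih =>
    intro k h hh hk e
    rw [Qm_succ]
    refine le_trans (sum_le_sum fun a ha => ?_) (sum_low_up P c hh hk (by omega))
    split_ifs
    · exact ih (k + 1) _ (append_mem_LL hh ha) (by omega) (by omega)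
    · exact le_rfl

theorem Q_lo (P : Par n η ρ q L V Δ) (h1 : η < 1) (c N : ℕ) : ∀ j k h, h ∈ LL N k → k + j = n →
    V ≤ mx h → (1 - η) ^ j * lam ρ q L c n h ≤ Qm (lam ρ q L c n) N j h := by
  intro j
  induction j with
  | zero => exact fun k h _ _ _ => by rw [pow_zero, one_mul, Qm_zero]
  | succ j ih =>
    intro k h hh e hV
    have h2 : 0 ≤ (1 - η) ^ j := pow_nonneg (by linarith) _
    rw [Qm_succ, pow_succ, mul_assoc]
    refine (mul_le_mul_of_nonneg_left (sum_low_lo P c hh (by omega) hV) h2).trans ?_
    rw [mul_sum]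
    refine sum_le_sum fun a ha => ?_
    split_ifs with h3
    · exact ih (k + 1) _ (append_mem_LL hh ha) (by omega)
        (by rw [mx_append]; exact hV.trans (le_max_left _ _))
    · rw [mul_zero]

theorem rule_iff {N k : ℕ} {h : List ℕ} (hh : h ∈ LL N k) (hkn : k < n) (a : ℕ) :
    rule n (h ++ [a]) = true ↔ mx h ≤ a ∧ bb n (k + 1) ≤ 1 := by
  rw [rule_append, ((mem_LL N k h).1 hh).1, ← bb_le_one_iff (by omega) (by omega)]
  push_cast
  rfl

theorem ne_mx {N k : ℕ} {h : List ℕ} (hh : h ∈ LL N k) (hk : 1 ≤ k) {a : ℕ}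
    (ha : a ∈ (Icc 1 N).filter (fun a => a ∉ h)) : a ≠ mx h := by
  have hl := ((mem_LL N k h).1 hh).1
  have hm : mx h ∈ h := mx_mem (by rintro rfl; simp at hl; omega)
  exact fun e => (mem_filter.1 ha).2 (e ▸ hm)

theorem B_up (P : Par n η ρ q L V Δ) (h0 : 0 < η) (c N : ℕ) :
    ∀ j k h, h ∈ LL N k → 1 ≤ k → k + j = n →
      Bm (lam ρ q L c n) n N j h ≤ (1 + η) ^ j * bb n k * lam ρ q L c n h := by
  have hp := lam_pos (zero_lt_one.trans P.one_lt) P.q_pos P.L_pos c n
  intro j
  induction j with
  | zero =>
    intro k h _ hk e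
    have : k = n := by omega
    rw [Bm_zero, this, bb_self]
    simp
  | succ j ih =>
    intro k h hh hk e
    have hb := bb_nonneg (n := n) (k := k + 1) (by omega) (by omega)
    have h2 : 1 ≤ (1 + η) ^ j := one_le_pow₀ (by linarith)
    have hm : 1 ≤ max 1 (bb n (k + 1)) := le_max_left _ _
    have hk' : (0 : ℝ) < k := by exact_mod_cast hk
    rw [Bm_succ]
    calc _ ≤ ∑ a ∈ (Icc 1 N).filter (fun a => a ∉ h),
          ((1 + η) ^ j * bb n (k + 1) * (if a ≤ mx h then lam ρ q L c n (h ++ [a]) else 0) +
            (1 + η) ^ j * max 1 (bb n (k + 1)) *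
              (if mx h < a then lam ρ q L c n (h ++ [a]) else 0)) := by
          refine sum_le_sum fun a ha => ?_
          have hm' := append_mem_LL hh ha
          have i1 := ih (k + 1) _ hm' (by omega) (by omega)
          have i2 := Q_up P c N j (k + 1) _ hm' (by omega) (by omega)
          have hpa := hp (h ++ [a])
          rcases lt_or_gt_of_ne (ne_mx hh hk ha) with h3 | h3
          · rw [if_neg (fun hc => ((rule_iff hh (by omega) a).1 hc).1.not_gt h3), if_pos h3.le,
              if_neg h3.not_gt, mul_zero, add_zero]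
            exact i1
          · rw [if_neg h3.not_ge, if_pos h3, mul_zero, zero_add]
            split_ifs
            · exact i2.trans (le_mul_of_one_le_left hpa.le (one_le_mul_of_one_le_of_one_le h2 hm))
            · refine i1.trans ?_
              gcongr
              exact le_max_right _ _
      _ ≤ (1 + η) ^ j * bb n (k + 1) * lam ρ q L c n h +
            (1 + η) ^ j * max 1 (bb n (k + 1)) * ((1 + η) / k * lam ρ q L c n h) := by
          rw [sum_add_distrib, ← mul_sum, ← mul_sum]
          gcongr
          · exact sum_low_up P c hh hk (by omega)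
          · exact sum_hi_up P c hh hk (by omega)
      _ ≤ (1 + η) ^ j * bb n (k + 1) * ((1 + η) * lam ρ q L c n h) +
            (1 + η) ^ j * max 1 (bb n (k + 1)) * ((1 + η) / k * lam ρ q L c n h) := by
          gcongr
          exact le_mul_of_one_le_left (hp h).le (by linarith)
      _ = _ := by rw [bb_rec hk (by omega : k < n)]; ring

theorem B_lo (P : Par n η ρ q L V Δ) (h1 : η < 1) (c N : ℕ) :
    ∀ j k h, h ∈ LL N k → 1 ≤ k → k + j = n → V ≤ mx h → mx h + j * Δ ≤ N →
      (1 - η) ^ j * bb n k * lam ρ q L c n h ≤ Bm (lam ρ q L c n) n N j h := by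
  have hp := lam_pos (zero_lt_one.trans P.one_lt) P.q_pos P.L_pos c n
  intro j
  induction j with
  | zero =>
    intro k h _ hk e _ _
    have : k = n := by omega
    rw [Bm_zero, this, bb_self]
    simp
  | succ j ih =>
    intro k h hh hk e hV hT
    have hb := bb_nonneg (n := n) (k := k + 1) (by omega) (by omega)
    have h2 : 0 ≤ (1 - η) ^ j := pow_nonneg (by linarith) _
    have hm : 0 ≤ max 1 (bb n (k + 1)) := zero_le_one.trans (le_max_left _ _)
    have hT' : mx h + j * Δ + Δ ≤ N := by rw [add_assoc, ← add_one_mul]; exact hT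
    rw [Bm_succ]
    calc _ = (1 - η) ^ j * bb n (k + 1) * ((1 - η) * lam ρ q L c n h) +
            (1 - η) ^ j * max 1 (bb n (k + 1)) * ((1 - η) / k * lam ρ q L c n h) := by
          rw [bb_rec hk (by omega : k < n)]; ring
      _ ≤ ∑ a ∈ (Icc 1 N).filter (fun a => a ∉ h),
          ((1 - η) ^ j * bb n (k + 1) * (if a ≤ mx h then lam ρ q L c n (h ++ [a]) else 0) +
            (1 - η) ^ j * max 1 (bb n (k + 1)) *
              (if mx h < a ∧ a ≤ mx h + Δ then lam ρ q L c n (h ++ [a]) else 0)) := by
          rw [sum_add_distrib, ← mul_sum, ← mul_sum]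
          gcongr
          · exact sum_low_lo P c hh (by omega) hV
          · exact sum_hi_lo P c hh hk (by omega) (by omega)
      _ ≤ _ := by
          refine sum_le_sum fun a ha => ?_
          have hm' := append_mem_LL hh ha
          have hV' : V ≤ mx (h ++ [a]) := by rw [mx_append]; exact hV.trans (le_max_left _ _)
          rcases lt_or_gt_of_ne (ne_mx hh hk ha) with h3 | h3
          · rw [if_neg (fun hc => ((rule_iff hh (by omega) a).1 hc).1.not_gt h3), if_pos h3.le,
              if_neg (fun hc => h3.not_gt hc.1), mul_zero, add_zero]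
            exact ih (k + 1) _ hm' (by omega) (by omega) hV'
              (by rw [mx_append, max_eq_left h3.le]; omega)
          · rw [if_neg h3.not_ge, mul_zero, zero_add]
            by_cases h4 : a ≤ mx h + Δ
            · rw [if_pos ⟨h3, h4⟩]
              split_ifs with h5
              · rw [max_eq_left ((rule_iff hh (by omega) a).1 h5).2, mul_one]
                exact Q_lo P h1 c N j (k + 1) _ hm' (by omega) hV'
              · have h6 : 1 ≤ bb n (k + 1) :=
                  (not_le.1 fun hc => h5 ((rule_iff hh (by omega) a).2 ⟨h3.le, hc⟩)).le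
                rw [max_eq_right h6]
                exact ih (k + 1) _ hm' (by omega) (by omega) hV'
                  (by rw [mx_append, max_eq_right h3.le]; omega)
            · rw [if_neg (fun hc => h4 hc.2), mul_zero]
              split_ifs
              · exact Qm_nonneg (fun l => (hp l).le) N _ _
              · exact Bm_nonneg (fun l => (hp l).le) n N _ _

end Pool.Agent.FS.GoogolLog
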