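import Pool.Agent.FS.GoogolLog.C
import Pool.Agent.FS.GoogolLog2.R

namespace Pool.Agent.FS.GoogolLog

open Finset Pool.Agent.Lib.MP_d38296_lc

open Classical in
/-- potential of a rule at a history -/
noncomputable def gpot (W : List ℕ → ℝ) (n N : ℕ) (A : List ℕ → Bool) (j : ℕ) (h : List ℕ) : ℝ :=
  if Wins A h then Qm W N j h else if NotStopped A h then Bm W n N j h else 0

theorem gpot_rule {W : List ℕ → ℝ} (hW : ∀ l, 0 ≤ W l) (n N j : ℕ) (h : List ℕ) :
    gpot W n N (rule n) (j + 1) h ≤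
      ∑ a ∈ (Icc 1 N).filter (fun a => a ∉ h), gpot W n N (rule n) j (h ++ [a]) := by
  have h0 : ∀ l, 0 ≤ gpot W n N (rule n) j l := fun l => by
    unfold gpot
    split_ifs
    exacts [Qm_nonneg hW N _ _, Bm_nonneg hW n N _ _, le_rfl]
  rw [gpot]
  split_ifs with h1 h2
  · rw [Qm_succ]
    refine sum_le_sum fun a _ => ?_
    split_ifs with h3
    · rw [gpot, if_pos ((wins_append_iff _ h a).2 (Or.inl ⟨h1, h3⟩))]
    · exact h0 _
  · rw [Bm_succ]
    refine sum_le_sum fun a _ => ?_
    split_ifs with h3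
    · rw [gpot, if_pos ((wins_append_iff _ h a).2
        (Or.inr ⟨h2, h3, ((rule_append n h a).1 h3).1⟩))]
    · rw [gpot, if_neg, if_pos ((notStopped_append_iff _ h a).2 ⟨h2, by simpa using h3⟩)]
      rw [wins_append_iff]
      rintro (h4 | h4)
      exacts [h1 h4.1, h3 h4.2.1]
  · exact sum_nonneg fun a _ => h0 _

theorem gpot_step {W : List ℕ → ℝ} (hW : ∀ l, 0 ≤ W l) (n N j : ℕ) (A : List ℕ → Bool)
    (h : List ℕ) (R : List ℕ → ℝ) (hR : ∀ l, 0 ≤ R l)
    (r1 : ∀ a ∈ (Icc 1 N).filter (fun a => a ∉ h), rule n (h ++ [a]) = true →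
      Bm W n N j (h ++ [a]) ≤ Qm W N j (h ++ [a]) + R (h ++ [a]))
    (r2 : ∀ a ∈ (Icc 1 N).filter (fun a => a ∉ h), mx h ≤ a → ¬ rule n (h ++ [a]) = true →
      Qm W N j (h ++ [a]) ≤ Bm W n N j (h ++ [a]) + R (h ++ [a])) :
    ∑ a ∈ (Icc 1 N).filter (fun a => a ∉ h), gpot W n N A j (h ++ [a]) ≤
      gpot W n N A (j + 1) h + ∑ a ∈ (Icc 1 N).filter (fun a => a ∉ h), R (h ++ [a]) := by
  rw [gpot]
  split_ifs with h1 h2
  · rw [Qm_succ, ← sum_add_distrib]
    refine sum_le_sum fun a _ => ?_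
    have := hR (h ++ [a])
    have := Qm_nonneg hW N j (h ++ [a])
    rw [gpot]
    split_ifs with h3 h4 h5 <;> try linarith
    · rcases (wins_append_iff A h a).1 h3 with h6 | h6
      exacts [absurd h6.2 h4, absurd h6.1 (wins_not_notStopped h1)]
    · exact absurd (notStopped_append h5) (wins_not_notStopped h1)
    · exact absurd (notStopped_append h5) (wins_not_notStopped h1)
  · rw [Bm_succ, ← sum_add_distrib]
    refine sum_le_sum fun a ha => ?_
    have := hR (h ++ [a])
    have := Qm_nonneg hW N j (h ++ [a])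
    have := Bm_nonneg hW n N j (h ++ [a])
    rw [gpot]
    split_ifs with h3 h4 h5 h6 <;> try linarith
    · rcases (wins_append_iff A h a).1 h3 with h6 | h6
      exacts [absurd h6.1 h1, r2 a ha h6.2.2 h4]
    · exact r1 a ha h6
  · rw [zero_add]
    refine sum_le_sum fun a _ => ?_
    rw [gpot, if_neg, if_neg fun hc => h2 (notStopped_append hc)]
    · exact hR _
    · rw [wins_append_iff]
      rintro (h4 | h4)
      exacts [h1 h4.1, h2 h4.1]

theorem gpot_nil (W : List ℕ → ℝ) (n N j : ℕ) (A : List ℕ → Bool) :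
    gpot W n N A j [] = Bm W n N j [] := by
  rw [gpot, if_neg, if_pos]
  · intro i hi
    simp at hi
  · rintro ⟨k, -⟩
    exact k.elim0

open Classical in
theorem gpot_zero (W : List ℕ → ℝ) (n N : ℕ) (A : List ℕ → Bool) (l : List ℕ) :
    gpot W n N A 0 l = W l * (if Wins A l then 1 else 0) := by
  rw [gpot, Qm_zero, Bm_zero]
  split_ifs <;> simp

variable {n : ℕ} {η ρ q L : ℝ} {V Δ : ℕ}

open Classical in
theorem det_le (P : Par n η ρ q L V Δ) (h0 : 0 < η) (h1 : η < 1)
    (hs : ∀ k : ℕ, 1 ≤ k → k ≤ n → (bb n k ≤ 1 → (1 + η) ^ n * bb n k ≤ (1 - η) ^ n) ∧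
      (1 < bb n k → 1 ≤ (1 - η) ^ n * bb n k)) (N : ℕ) (A : List ℕ → Bool) :
    ∑ l ∈ LL N n, lam ρ q L (N / 2) n l * (if Wins A l then 1 else 0) ≤
      ∑ l ∈ LL N n, lam ρ q L (N / 2) n l * (if Wins (rule n) l then 1 else 0) +
        n * (2 ^ n * (((V + n * Δ + 1 : ℕ) : ℝ) * (L + 1) ^ n * q ^ (N / 2 - (V + n * Δ)))) := by
  have hp := lam_pos (zero_lt_one.trans P.one_lt) P.q_pos P.L_pos (N / 2) n
  set W := lam ρ q L (N / 2) n with hW
  set E : ℝ := 2 ^ n * (((V + n * Δ + 1 : ℕ) : ℝ) * (L + 1) ^ n * q ^ (N / 2 - (V + n * Δ)))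
    with hE
  have hW0 : ∀ l, 0 ≤ W l := fun l => (hp l).le
  have h2n : (1 : ℝ) ≤ 2 ^ n := one_le_pow₀ one_le_two
  let R : List ℕ → ℝ := fun l => 2 ^ n * if mx l < V ∨ N < mx l + n * Δ then W l else 0
  have hR : ∀ l, 0 ≤ R l := fun l => mul_nonneg (by positivity) (by
    split_ifs; exacts [hW0 l, le_rfl])
  have a1 : ∀ k, k ≤ n → ∑ h ∈ LL N k, gpot W n N A (n - k) h ≤ Bm W n N n [] + k * E := by
    intro k
    induction k with
    | zero => intro _; simp [(show LL N 0 = {[]} from rfl), gpot_nil]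
    | succ k ih =>
      intro hk
      have e : n - k = n - (k + 1) + 1 := by omega
      have i1 := ih (by omega)
      have i2 : ∑ l ∈ LL N (k + 1), R l ≤ E := by
        rw [← mul_sum]
        exact mul_le_mul_of_nonneg_left (bad_mass P N (k + 1) hk) (by positivity)
      rw [sum_LL_succ] at i2 ⊢
      rw [e] at i1
      have i3 : ∑ h ∈ LL N k, ∑ a ∈ (Icc 1 N).filter (fun a => a ∉ h),
          gpot W n N A (n - (k + 1)) (h ++ [a]) ≤ ∑ h ∈ LL N k, (gpot W n N A (n - (k + 1) + 1) h +
            ∑ a ∈ (Icc 1 N).filter (fun a => a ∉ h), R (h ++ [a])) := by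
        refine sum_le_sum fun h hh => gpot_step hW0 n N _ A h R hR (fun a ha h3 => ?_)
          fun a ha h3 h4 => ?_
        · have hm := append_mem_LL hh ha
          have b1 := ((rule_iff hh (by omega) a).1 h3).2
          have b0 := bb_nonneg (n := n) (k := k + 1) (by omega) hk
          have b2 := B_up P h0 (N / 2) N (n - (k + 1)) (k + 1) _ hm (by omega) (by omega)
          have b3 : (1 + η) ^ (n - (k + 1)) ≤ (1 + η) ^ n :=
            pow_le_pow_right₀ (by linarith) (by omega)
          have b4 : (1 - η) ^ n ≤ (1 - η) ^ (n - (k + 1)) :=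
            pow_le_pow_of_le_one (by linarith) (by linarith) (by omega)
          have b5 : Bm W n N (n - (k + 1)) (h ++ [a]) ≤ (1 - η) ^ (n - (k + 1)) * W (h ++ [a]) :=
            b2.trans (mul_le_mul_of_nonneg_right (le_trans (mul_le_mul_of_nonneg_right b3 b0)
              (((hs (k + 1) (by omega) hk).1 b1).trans b4)) (hW0 _))
          by_cases hb : mx (h ++ [a]) < V ∨ N < mx (h ++ [a]) + n * Δ
          · have b6 : (1 - η) ^ (n - (k + 1)) ≤ 2 ^ n :=
              (pow_le_one₀ (by linarith) (by linarith)).trans h2n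
            have b7 := mul_le_mul_of_nonneg_right b6 (hW0 (h ++ [a]))
            have b8 := Qm_nonneg hW0 N (n - (k + 1)) (h ++ [a])
            simp only [R, if_pos hb]
            linarith
          · have b6 := Q_lo P h1 (N / 2) N (n - (k + 1)) (k + 1) _ hm (by omega)
              (not_lt.1 fun hc => hb (Or.inl hc))
            exact (b5.trans b6).trans (le_add_of_nonneg_right (hR _))
        · have hm := append_mem_LL hh ha
          have b1 : 1 < bb n (k + 1) :=
            not_le.1 fun hc => h4 ((rule_iff hh (by omega) a).2 ⟨h3, hc⟩)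
          have b2 := Q_up P (N / 2) N (n - (k + 1)) (k + 1) _ hm (by omega) (by omega)
          by_cases hb : mx (h ++ [a]) < V ∨ N < mx (h ++ [a]) + n * Δ
          · have b7 := mul_le_mul_of_nonneg_right h2n (hW0 (h ++ [a]))
            have b8 := Bm_nonneg hW0 n N (n - (k + 1)) (h ++ [a])
            simp only [R, if_pos hb]
            linarith
          · have b3 : (n - (k + 1)) * Δ ≤ n * Δ := Nat.mul_le_mul_right _ (by omega)
            have b6 := B_lo P h1 (N / 2) N (n - (k + 1)) (k + 1) _ hm (by omega) (by omega)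
              (not_lt.1 fun hc => hb (Or.inl hc))
              (by have := not_lt.1 fun hc => hb (Or.inr hc); omega)
            have b4 : (1 - η) ^ n ≤ (1 - η) ^ (n - (k + 1)) :=
              pow_le_pow_of_le_one (by linarith) (by linarith) (by omega)
            have b5 : 1 ≤ (1 - η) ^ (n - (k + 1)) * bb n (k + 1) :=
              ((hs (k + 1) (by omega) hk).2 b1).trans
                (mul_le_mul_of_nonneg_right b4 (by linarith))
            exact ((b2.trans (le_mul_of_one_le_left (hW0 _) b5)).trans b6).trans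
              (le_add_of_nonneg_right (hR _))
      rw [sum_add_distrib] at i3
      push_cast
      linarith
  have a2 : ∀ k, k ≤ n → Bm W n N n [] ≤ ∑ h ∈ LL N k, gpot W n N (rule n) (n - k) h := by
    intro k
    induction k with
    | zero => intro _; simp [(show LL N 0 = {[]} from rfl), gpot_nil]
    | succ k ih =>
      intro hk
      have e : n - k = n - (k + 1) + 1 := by omega
      refine (ih (by omega)).trans ?_
      rw [sum_LL_succ, e]
      exact sum_le_sum fun h _ => gpot_rule hW0 n N _ h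
  have a3 := a1 n le_rfl
  have a4 := a2 n le_rfl
  simp only [Nat.sub_self, gpot_zero] at a3 a4
  linarith

theorem total_ge (P : Par n η ρ q L V Δ) (h1 : η < 1) (hn : 1 ≤ n) {N : ℕ}
    (hN : V + 1 ≤ N / 2) :
    (1 - η) ^ (n - 1) * L ^ (n - 1) ≤ ∑ l ∈ LL N n, lam ρ q L (N / 2) n l := by
  have h0 : 0 < ρ := zero_lt_one.trans P.one_lt
  have hp := lam_pos h0 P.q_pos P.L_pos (N / 2) n
  have hm : [N / 2] ∈ LL N 1 := by
    rw [mem_LL]
    refine ⟨rfl, List.nodup_singleton _, fun x hx => ?_⟩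
    rw [List.mem_singleton.1 hx, mem_Icc]
    omega
  have hx : mx [N / 2] = N / 2 := by simp [mx]
  have h2 := Q_lo P h1 (N / 2) N (n - 1) 1 _ hm (by omega) (by omega)
  have h3 : lam ρ q L (N / 2) n [N / 2] = L ^ (n - 1) := by
    unfold lam wt
    rw [hx]
    simp [(pow_pos h0 (N / 2)).ne']
  have h4 := Qm_le_total (fun l => (hp l).le) N (n - 1) 1
  rw [show 1 + (n - 1) = n by omega] at h4
  rw [h3] at h2
  exact h2.trans ((single_le_sum (f := fun h => Qm (lam ρ q L (N / 2) n) N (n - 1) h)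
    (fun h _ => Qm_nonneg (fun l => (hp l).le) N _ _) hm).trans h4)

end Pool.Agent.FS.GoogolLog
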